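import Pool.Agent.Helper74.FP.Goals

/-!
# Packet FP-F2
-/

set_option autoImplicit false

namespace Pool.Agent.Helper31.FP

open Pool.Agent.Helper52.Wq2 Pool.Agent.Helper61.NW Pool.Agent.Helper74.FP Monoid

universe u

theorem f2 : F2Stmt.{u} := by
  intro ι A _ S hS
  refine ⟨?_, ?_, ?_⟩
  · rw [eq_top_iff]
    rintro x -
    induction x using CoprodI.induction_on with
    | one => exact one_mem _
    | of i m =>
      have h1 : Subgroup.closure (S i) ≤
          (Subgroup.closure (US S)).comap (CoprodI.of : A i →* CoprodI A) := by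
        rw [Subgroup.closure_le]
        intro s hs
        exact Subgroup.subset_closure ⟨i, s, hs, rfl⟩
      rw [(hS i).1] at h1
      exact h1 (Subgroup.mem_top m)
    | mul x y hx hy => exact mul_mem hx hy
  · rintro _ ⟨i, s, hs, rfl⟩
    exact ⟨i, s⁻¹, (hS i).2.1 s hs, (map_inv _ _).symm⟩
  · rintro ⟨i, s, hs, h1⟩
    have h2 : s = 1 := by
      apply CoprodI.of_injective i
      rw [map_one]
      exact h1.symm
    rw [h2] at hs
    exact (hS i).2.2 hs

end Pool.Agent.Helper31.FP
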